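import Pool.Agent.W700.GMain
import Pool.Agent.H548R3.NoAP
import Pool.Agent.H548R3.PConstr

/-!
A compact metric space over which the little Lipschitz functions separate the points uniformly and
whose Lipschitz free space fails the approximation property.
-/

set_option autoImplicit false
set_option linter.unusedSectionVars false

open Set Filter Topology

namespace Pool.Agent.W700.Gauge

open Pool.Agent.H548R3 Pool.Agent.H548R3.PFree Pool.Agent.Helper362.Hap

/-- the free space over `M` as a normed space -/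
theorem exists_free (M : Type) [MetricSpace M] (x0 : M) (X : Type) [NormedAddCommGroup X]
    [NormedSpace ℝ X] [CompleteSpace X] (ι : M → X) (hι0 : ι x0 = 0)
    (hι : ∀ x y, ‖ι x - ι y‖ ≤ dist x y) :
    ∃ (E : Type) (_ : NormedAddCommGroup E) (_ : NormedSpace ℝ E) (_ : CompleteSpace E) (δ : M → E),
      δ x0 = 0 ∧ (∀ x y : M, ‖δ x - δ y‖ = dist x y) ∧
      Dense ((Submodule.span ℝ (Set.range δ) : Submodule ℝ E) : Set E) ∧
      (∀ f : M → ℝ, f x0 = 0 → (∀ a b : M, |f a - f b| ≤ dist a b) →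
        ∃ φ : E →L[ℝ] ℝ, ‖φ‖ ≤ 1 ∧ ∀ x : M, φ (δ x) = f x) ∧
      ∃ β : E →L[ℝ] X, ∀ x, β (δ x) = ι x := by
  have hp : Fact (0 < (1 : ℝ) ∧ (1 : ℝ) ≤ 1) := ⟨one_pos, le_rfl⟩
  have hfree := isLipschitzFree (p := 1) (M := M) x0
  have hpn : ∀ {Z : Type} [NormedAddCommGroup Z] (z : Z), pnorm 1 z = ‖z‖ := by
    intro Z _ z
    unfold pnorm
    rw [div_one, Real.rpow_one]
  have hban : ∀ (Z : Type) [NormedAddCommGroup Z] [NormedSpace ℝ Z] [CompleteSpace Z],
      IsPBanach 1 Z := by
    intro Z _ _ _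
    refine ⟨fun a z => ?_, inferInstance⟩
    rw [Real.rpow_one, norm_smul, Real.norm_eq_abs]
  letI inst : NormedSpace ℝ (FF 1 M) :=
    { (inferInstance : Module ℝ (FF 1 M)) with
      norm_smul_le := fun c x => by
        have h := norm_FF_smul (p := 1) (M := M) c x
        rw [Real.rpow_one] at h
        rw [Real.norm_eq_abs]
        exact h.le }
  refine ⟨FF 1 M, inferInstance, inst, inferInstance, fun x => cl x x0, hfree.base, ?_, hfree.dense,
    ?_, ?_⟩
  · intro x y
    have := hfree.isometric x y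
    rwa [hpn] at this
  · intro f hf0 hf
    obtain ⟨φ, h1, h2, -⟩ := hfree.lift ℝ (hban ℝ) f hf0 ⟨1, fun x y => by
      rw [hpn, one_mul, Real.norm_eq_abs]
      exact hf x y⟩
    refine ⟨φ, ?_, h1⟩
    refine ContinuousLinearMap.opNorm_le_bound _ zero_le_one fun z => ?_
    have h3 := (h2 1 zero_le_one).1 (fun x y => by
      rw [hpn, one_mul, Real.norm_eq_abs]
      exact hf x y) z
    rwa [hpn, hpn] at h3
  · obtain ⟨β, h1, -, -⟩ := hfree.lift X (hban X) ι hι0 ⟨1, fun x y => by
      rw [hpn, one_mul]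
      exact hι x y⟩
    exact ⟨β, h1⟩

end Pool.Agent.W700.Gauge
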