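import Pool.Agent.W700.GMet
import Pool.Agent.H548R3.PAP

/-!
If a Banach space `X` fails the approximation property on a family of test vectors, then there are a
compact set `C` in `X` and a gauge such that every Lipschitz free space over `C` with the metric
`om ‖x - y‖` fails the approximation property.
-/

set_option autoImplicit false
set_option linter.unusedSectionVars false

open Set Filter Topology

namespace Pool.Agent.W700.Gauge

open Pool.Agent.H548R3

theorem exists_bad {X : Type} [NormedAddCommGroup X] [NormedSpace ℝ X] [CompleteSpace X]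
    (hX : ∃ (v : ℕ → X) (J : Type) (_ : Countable J) (N : J → ℕ)
      (a : J → ℕ → ℝ), (Summable fun i => ‖v i‖) ∧
      Tendsto (fun j => ∑ i ∈ Finset.range (N j), a j i • v i) cofinite (𝓝 0) ∧
      ∀ T : X →L[ℝ] X, FiniteDimensional ℝ (LinearMap.range (T : X →ₗ[ℝ] X)) →
        ∃ j, 1 / 8 < ‖T (∑ i ∈ Finset.range (N j), a j i • v i) -
          ∑ i ∈ Finset.range (N j), a j i • v i‖) :
    ∃ (T : Tau) (C : Set X), IsCompact C ∧ (0 : X) ∈ C ∧
      ∀ (E : Type) [NormedAddCommGroup E] [NormedSpace ℝ E] (δ : GM T C → E),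
        (∀ x y, ‖δ x - δ y‖ = dist x y) →
        ∀ β : E →L[ℝ] X, (∀ x, β (δ x) = x.pt) →
        ∃ K : Set E, IsCompact K ∧ ∃ ε : ℝ, 0 < ε ∧
          ∀ R : E →L[ℝ] E, FiniteDimensional ℝ (LinearMap.range (R : E →ₗ[ℝ] E)) →
            ∃ z ∈ K, ε < ‖R z - z‖ := by
  classical
  obtain ⟨v, J, hJ, N, a, hv, hx0, hT⟩ := hX
  set x : J → X := fun j => ∑ i ∈ Finset.range (N j), a j i • v i with hx
  -- the compact box
  let Φ : (ℕ → ℝ) → X := fun t => ∑' i, (max (-1) (min 2 (t i))) • v i
  have hclamp : ∀ s : ℝ, |max (-1) (min 2 s)| ≤ 2 := by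
    intro s
    rw [abs_le]
    constructor
    · exact le_trans (by norm_num) (le_max_left _ _)
    · exact max_le (by norm_num) (min_le_left _ _)
  have hΦ : Continuous Φ := by
    refine continuous_tsum (u := fun i => 2 * ‖v i‖) (fun i => ?_) (hv.mul_left 2) fun i t => ?_
    · fun_prop
    · rw [norm_smul, Real.norm_eq_abs]
      exact mul_le_mul_of_nonneg_right (hclamp _) (norm_nonneg _)
  let C : Set X := Φ '' (Set.pi univ fun _ => Icc (-1 : ℝ) 2)
  have hC : IsCompact C := (isCompact_univ_pi fun _ => isCompact_Icc).image hΦ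
  have hCmem : ∀ (m : ℕ) (t : ℕ → ℝ), (∀ i, t i ∈ Icc (-1 : ℝ) 2) →
      ∑ i ∈ Finset.range m, t i • v i ∈ C := by
    intro m t ht
    refine ⟨fun i => if i < m then t i else 0, fun i _ => ?_, ?_⟩
    · simp only
      split_ifs
      · exact ht i
      · exact ⟨by norm_num, by norm_num⟩
    · show ∑' i, (max (-1) (min 2 (if i < m then t i else 0))) • v i = _
      rw [tsum_eq_sum (s := Finset.range m)]
      · refine Finset.sum_congr rfl fun i hi => ?_
        rw [if_pos (Finset.mem_range.1 hi), min_eq_right (ht i).2, max_eq_right (ht i).1]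
      · intro i hi
        rw [if_neg (fun h => hi (Finset.mem_range.2 h))]
        norm_num
  have hC0 : (0 : X) ∈ C := by
    have := hCmem 0 (fun _ => 0) (fun _ => ⟨by norm_num, by norm_num⟩)
    simpa using this
  have hCadd : ∀ (m n : ℕ) (t b : ℕ → ℝ), (∀ i, t i ∈ Icc (0 : ℝ) 1) → (∀ i, i < n → |b i| ≤ 1) →
      ∑ i ∈ Finset.range m, t i • v i + ∑ i ∈ Finset.range n, b i • v i ∈ C := by
    intro m n t b ht hb
    have h1 : ∀ (k : ℕ) (c : ℕ → ℝ), k ≤ max m n → ∑ i ∈ Finset.range k, c i • v i =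
        ∑ i ∈ Finset.range (max m n), (if i < k then c i else 0) • v i := by
      intro k c hk
      have hsub : Finset.range k ⊆ Finset.range (max m n) := Finset.range_mono hk
      rw [← Finset.sum_subset hsub]
      · refine Finset.sum_congr rfl fun i hi => ?_
        rw [if_pos (Finset.mem_range.1 hi)]
      · intro i _ hi
        rw [if_neg (fun h => hi (Finset.mem_range.2 h)), zero_smul]
    rw [h1 m t (le_max_left _ _), h1 n b (le_max_right _ _), ← Finset.sum_add_distrib]
    have h2 : ∀ i, (if i < m then t i else 0) • v i + (if i < n then b i else 0) • v i =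
        ((if i < m then t i else 0) + (if i < n then b i else 0)) • v i := fun i =>
      (add_smul _ _ _).symm
    simp only [h2]
    refine hCmem _ _ fun i => ?_
    have h3 : (if i < m then t i else 0) ∈ Icc (0 : ℝ) 1 := by
      split_ifs
      · exact ht i
      · exact ⟨le_rfl, zero_le_one⟩
    have h4 : |(if i < n then b i else 0)| ≤ 1 := by
      split_ifs with h
      · exact hb i h
      · rw [abs_zero]; exact zero_le_one
    rw [abs_le] at h4
    constructor <;> linarith [h3.1, h3.2, h4.1, h4.2]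
  -- constants
  obtain ⟨e, he⟩ := exists_injective_nat J
  let η : J → ℝ := fun j => 1 / ((e j : ℝ) + 1)
  have hηpos : ∀ j, 0 < η j := fun j => by positivity
  have hη1 : ∀ j, η j ≤ 1 := fun j => by
    show 1 / ((e j : ℝ) + 1) ≤ 1
    rw [div_le_one (by positivity)]
    have : (0 : ℝ) ≤ e j := Nat.cast_nonneg _
    linarith
  have hη : Tendsto η cofinite (𝓝 0) := by
    have h1 : Tendsto e cofinite atTop := by
      rw [← Nat.cofinite_eq_atTop]
      exact he.tendsto_cofinite
    exact tendsto_one_div_add_atTop_nhds_zero_nat.comp h1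
  let A : J → ℝ := fun j => ∑ i ∈ Finset.range (N j), |a j i|
  let S : J → ℝ := fun j => ∑ i ∈ Finset.range (N j), |a j i| * ‖v i‖
  have hA : ∀ j, 0 ≤ A j := fun j => Finset.sum_nonneg fun i _ => abs_nonneg _
  have hS : ∀ j, 0 ≤ S j := fun j =>
    Finset.sum_nonneg fun i _ => mul_nonneg (abs_nonneg _) (norm_nonneg _)
  let c : J → ℝ := fun j => 2 * A j + 1
  have hc : ∀ j, 0 < c j := fun j => by have := hA j; positivity
  let h : J → ℝ := fun j => η j / (c j * (S j + 1))
  have hh : ∀ j, 0 < h j := fun j => by have := hc j; have := hS j; have := hηpos j; positivity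
  have hcS : ∀ j, c j * (h j * S j) ≤ η j := by
    intro j
    have h1 := hc j
    have h2 := hS j
    have h3 : c j * (h j * S j) = η j * (S j / (S j + 1)) := by
      simp only [h]
      field_simp
    rw [h3]
    have h4 : S j / (S j + 1) ≤ 1 := by
      rw [div_le_one (by positivity)]
      linarith
    calc η j * (S j / (S j + 1)) ≤ η j * 1 := mul_le_mul_of_nonneg_left h4 (hηpos j).le
      _ = η j := mul_one _
  have hha : ∀ j i, i < N j → |h j * a j i| ≤ 1 := by
    intro j i hi
    rw [abs_mul, abs_of_pos (hh j)]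
    have h1 : |a j i| ≤ A j := Finset.single_le_sum (f := fun i => |a j i|)
      (fun i _ => abs_nonneg _) (Finset.mem_range.2 hi)
    have h2 := hc j
    have h3 := hS j
    have h4 : h j * c j ≤ 1 := by
      have h5 : h j * c j = η j / (S j + 1) := by
        simp only [h]
        field_simp
      rw [h5, div_le_one (by positivity)]
      linarith [hη1 j]
    have h6 : |a j i| ≤ c j := by
      simp only [c]
      linarith [hA j]
    calc h j * |a j i| ≤ h j * c j := mul_le_mul_of_nonneg_left h6 (hh j).le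
      _ ≤ 1 := h4
  -- the gauge
  obtain ⟨T, hTau⟩ := exists_tau (J := J ⊕ J)
    (Sum.elim (fun j => (h j)⁻¹) c) (Sum.elim (fun j => h j * ‖x j‖) (fun j => h j * S j))
    (by
      rintro (j | j)
      · exact (inv_pos.2 (hh j)).le
      · exact (hc j).le)
    (by
      rintro (j | j)
      · exact mul_nonneg (hh j).le (norm_nonneg _)
      · exact mul_nonneg (hh j).le (hS j))
    (by
      have h1 : ∀ ε > 0, {j : J | ¬ ‖x j‖ < ε}.Finite := fun ε hε => by
        have := (hx0.norm).eventually (gt_mem_nhds (show ‖(0 : X)‖ < ε by rwa [norm_zero]))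
        rwa [eventually_cofinite] at this
      have h2 : ∀ ε > 0, {j : J | ¬ η j < ε}.Finite := fun ε hε => by
        have := hη.eventually (gt_mem_nhds hε)
        rwa [eventually_cofinite] at this
      rw [Metric.tendsto_nhds]
      intro ε hε
      rw [eventually_cofinite]
      refine (((h1 ε hε).image Sum.inl).union ((h2 ε hε).image Sum.inr)).subset ?_
      rintro (j | j) hj
      · refine Or.inl ⟨j, fun hlt => hj ?_, rfl⟩
        rw [dist_zero_right]
        show ‖(h j)⁻¹ * (h j * ‖x j‖)‖ < ε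
        rw [inv_mul_cancel_left₀ (hh j).ne', norm_norm]
        exact hlt
      · refine Or.inr ⟨j, fun hlt => hj ?_, rfl⟩
        rw [dist_zero_right]
        show ‖c j * (h j * S j)‖ < ε
        rw [Real.norm_of_nonneg (mul_nonneg (hc j).le (mul_nonneg (hh j).le (hS j)))]
        exact lt_of_le_of_lt (hcS j) hlt)
  have hT1 : Tendsto (fun j => (h j)⁻¹ * T.om (h j * ‖x j‖)) cofinite (𝓝 0) :=
    hTau.comp (Sum.inl_injective.tendsto_cofinite)
  have hT2 : Tendsto (fun j => c j * T.om (h j * S j)) cofinite (𝓝 0) :=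
    hTau.comp (Sum.inr_injective.tendsto_cofinite)
  refine ⟨T, C, hC, hC0, fun E _ _ δ hδ β hβ => ?_⟩
  have hcomp : CompactSpace (GM T C) := GM.compactSpace hC
  have hδc : Continuous δ := by
    have h : Isometry δ := Isometry.of_dist_eq fun x y => by rw [dist_eq_norm, hδ]
    exact h.continuous
  have hptc : Continuous (GM.pt : GM T C → X) := GM.continuous_pt
  -- the compact sets
  let P1 : J → Set (GM T C × GM T C) := fun j => {q | q.1.pt - q.2.pt = h j • x j}
  let P2 : J → Set (GM T C × GM T C) := fun j => {q | ‖q.1.pt - q.2.pt‖ ≤ h j * S j}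
  have hP1 : ∀ j, IsCompact (P1 j) := fun j =>
    (isClosed_eq ((hptc.comp continuous_fst).sub (hptc.comp continuous_snd))
      continuous_const).isCompact
  have hP2 : ∀ j, IsCompact (P2 j) := fun j =>
    (isClosed_le ((hptc.comp continuous_fst).sub (hptc.comp continuous_snd)).norm
      continuous_const).isCompact
  let K1 : J → Set E := fun j => (fun q : GM T C × GM T C => (h j)⁻¹ • (δ q.1 - δ q.2)) '' P1 j
  let K2 : J → Set E := fun j => (fun q : GM T C × GM T C => c j • (δ q.1 - δ q.2)) '' P2 j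
  have hK1 : ∀ j, IsCompact (K1 j) := fun j => (hP1 j).image (by fun_prop)
  have hK2 : ∀ j, IsCompact (K2 j) := fun j => (hP2 j).image (by fun_prop)
  have hK1n : ∀ j, ∀ z ∈ K1 j, ‖z‖ ≤ (h j)⁻¹ * T.om (h j * ‖x j‖) := by
    rintro j _ ⟨⟨y, u⟩, hq, rfl⟩
    have hq' : y.pt - u.pt = h j • x j := hq
    show ‖(h j)⁻¹ • (δ y - δ u)‖ ≤ _
    rw [norm_smul, Real.norm_of_nonneg (inv_pos.2 (hh j)).le, hδ, GM.dist_def, hq', norm_smul,
      Real.norm_of_nonneg (hh j).le]
  have hK2n : ∀ j, ∀ z ∈ K2 j, ‖z‖ ≤ c j * T.om (h j * S j) := by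
    rintro j _ ⟨⟨y, u⟩, hq, rfl⟩
    have hq' : ‖y.pt - u.pt‖ ≤ h j * S j := hq
    show ‖c j • (δ y - δ u)‖ ≤ _
    rw [norm_smul, Real.norm_of_nonneg (hc j).le, hδ, GM.dist_def]
    exact mul_le_mul_of_nonneg_left (T.om_mono (norm_nonneg _) hq') (hc j).le
  have hcompact : IsCompact ({0} ∪ ⋃ j, (K1 j ∪ K2 j)) := by
    refine PFree.isCompact_shrinking (fun j => K1 j ∪ K2 j) (fun j => (hK1 j).union (hK2 j))
      (fun j => max ((h j)⁻¹ * T.om (h j * ‖x j‖)) (c j * T.om (h j * S j))) ?_ ?_
    · have h5 := hT1.max hT2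
      rwa [max_self] at h5
    · rintro j z (hz | hz)
      · exact le_max_of_le_left (hK1n j z hz)
      · exact le_max_of_le_right (hK2n j z hz)
  refine ⟨_, hcompact, 1 / (32 * (‖β‖ + 1)), by positivity, fun R hR => ?_⟩
  by_contra hcon
  push Not at hcon
  have hR2 : ∀ z ∈ ({0} ∪ ⋃ j, (K1 j ∪ K2 j) : Set E), ‖β (R z) - β z‖ ≤ 1 / 32 := by
    intro z hz
    rw [← map_sub]
    refine (β.le_opNorm _).trans ?_
    calc ‖β‖ * ‖R z - z‖ ≤ (‖β‖ + 1) * (1 / (32 * (‖β‖ + 1))) := by
          refine mul_le_mul (by linarith) (hcon z hz) (norm_nonneg _) (by positivity)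
      _ = 1 / 32 := by
          have : ‖β‖ + 1 ≠ 0 := by positivity
          field_simp
  -- the finite dimensional range
  let V : Submodule ℝ X := (LinearMap.range (R : E →ₗ[ℝ] E)).map (β : E →ₗ[ℝ] X)
  have hV : FiniteDimensional ℝ V := by
    have := hR
    infer_instance
  let γ : E →L[ℝ] V := (β.comp R).codRestrict V (fun z => ⟨R z, ⟨z, rfl⟩, rfl⟩)
  have hγ : ∀ z, (γ z : X) = β (R z) := fun z => rfl
  let b := Module.finBasis ℝ V
  let ξ : Fin (Module.finrank ℝ V) → (E →L[ℝ] ℝ) := fun l =>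
    (LinearMap.toContinuousLinearMap (b.coord l)).comp γ
  have hξ : ∀ z, γ z = ∑ l, ξ l z • b l := fun z => (b.sum_repr (γ z)).symm
  have hξlip : ∀ l, ∀ y u : GM T C, |ξ l (δ y) - ξ l (δ u)| ≤ ‖ξ l‖ * dist y u := by
    intro l y u
    rw [← map_sub, ← Real.norm_eq_abs, ← hδ]
    exact (ξ l).le_opNorm _
  set B : ℝ := ∑ l, ‖ξ l‖ * ‖b l‖ with hB
  have hB0 : 0 ≤ B := Finset.sum_nonneg fun l _ => mul_nonneg (norm_nonneg _) (norm_nonneg _)
  -- choice of the level of truncation
  have hev : ∀ᶠ n in atTop, ∀ j, 2 * B * min (T.tail n) (T.om (h j * ‖x j‖)) ≤ h j / 32 ∧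
      2 * B * min (T.tail n) (T.om (h j * S j)) ≤ (1 / 32) / c j := by
    have hpos : 0 < 1 / (64 * (B + 1)) := by positivity
    have hF1 : {j | ¬ (h j)⁻¹ * T.om (h j * ‖x j‖) < 1 / (64 * (B + 1))}.Finite := by
      have := hT1.eventually (gt_mem_nhds hpos)
      rwa [eventually_cofinite] at this
    have hF2 : {j | ¬ c j * T.om (h j * S j) < 1 / (64 * (B + 1))}.Finite := by
      have := hT2.eventually (gt_mem_nhds hpos)
      rwa [eventually_cofinite] at this
    have hBle : 2 * B * (1 / (64 * (B + 1))) ≤ 1 / 32 := by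
      rw [mul_one_div, div_le_div_iff₀ (by positivity) (by norm_num)]
      linarith
    have hlim : Tendsto (fun n => 2 * B * T.tail n) atTop (𝓝 0) := by
      have := T.tendsto_tail.const_mul (2 * B)
      rwa [mul_zero] at this
    have hev1 : ∀ᶠ n in atTop, ∀ j ∈ hF1.toFinset ∪ hF2.toFinset,
        2 * B * T.tail n ≤ h j / 32 ∧ 2 * B * T.tail n ≤ (1 / 32) / c j := by
      rw [Filter.eventually_all_finset]
      intro j _
      have h1 : 0 < h j / 32 := by have := hh j; positivity
      have h2 : 0 < (1 / 32) / c j := by have := hc j; positivity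
      exact (hlim.eventually (ge_mem_nhds h1)).and (hlim.eventually (ge_mem_nhds h2))
    filter_upwards [hev1] with n hn j
    by_cases hj : j ∈ hF1.toFinset ∪ hF2.toFinset
    · obtain ⟨h1, h2⟩ := hn j hj
      constructor
      · refine le_trans ?_ h1
        exact mul_le_mul_of_nonneg_left (min_le_left _ _) (by positivity)
      · refine le_trans ?_ h2
        exact mul_le_mul_of_nonneg_left (min_le_left _ _) (by positivity)
    · rw [Finset.mem_union, not_or, Set.Finite.mem_toFinset, Set.Finite.mem_toFinset,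
        mem_ofPred_eq, mem_ofPred_eq, not_not, not_not] at hj
      obtain ⟨h1, h2⟩ := hj
      constructor
      · have h3 : T.om (h j * ‖x j‖) ≤ h j * (1 / (64 * (B + 1))) := by
          rw [inv_mul_lt_iff₀ (hh j)] at h1
          exact h1.le
        calc 2 * B * min (T.tail n) (T.om (h j * ‖x j‖)) ≤ 2 * B * (h j * (1 / (64 * (B + 1)))) :=
              mul_le_mul_of_nonneg_left ((min_le_right _ _).trans h3) (by positivity)
          _ = h j * (2 * B * (1 / (64 * (B + 1)))) := by ring
          _ ≤ h j * (1 / 32) := mul_le_mul_of_nonneg_left hBle (hh j).le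
          _ = h j / 32 := by ring
      · have h3 : T.om (h j * S j) ≤ (1 / (64 * (B + 1))) / c j := by
          rw [le_div_iff₀ (hc j), mul_comm]
          exact h2.le
        calc 2 * B * min (T.tail n) (T.om (h j * S j)) ≤ 2 * B * ((1 / (64 * (B + 1))) / c j) :=
              mul_le_mul_of_nonneg_left ((min_le_right _ _).trans h3) (by positivity)
          _ = (2 * B * (1 / (64 * (B + 1)))) / c j := by ring
          _ ≤ (1 / 32) / c j := div_le_div_of_nonneg_right hBle (hc j).le
  obtain ⟨n, hn⟩ := hev.exists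
  have happ := fun l => GM.approx hC ⟨0, hC0⟩ (fun y => ξ l (δ y)) (norm_nonneg (ξ l)) (hξlip l) n
  choose g hg1 hg2 hg3 using happ
  let ψ : X → V := fun y => ∑ l, g l y • b l
  -- Lipschitz bound of `ψ`
  have hψ : ∀ y y', ‖ψ y - ψ y'‖ ≤ (B * (n + 1)) * ‖y - y'‖ := by
    intro y y'
    have h1 : ψ y - ψ y' = ∑ l, (g l y - g l y') • b l := by
      simp only [ψ, sub_smul, Finset.sum_sub_distrib]
    rw [h1]
    refine (norm_sum_le _ _).trans ?_
    rw [hB, Finset.sum_mul, Finset.sum_mul]
    refine Finset.sum_le_sum fun l _ => ?_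
    rw [norm_smul, Real.norm_eq_abs]
    have h2 := mul_le_mul_of_nonneg_right (hg1 l y y') (norm_nonneg (b l))
    linarith
  -- error estimates
  have herr : ∀ y u : GM T C, ‖(ψ y.pt - γ (δ y)) - (ψ u.pt - γ (δ u))‖ ≤
      2 * B * min (T.tail n) (dist y u) := by
    intro y u
    have h1 : (ψ y.pt - γ (δ y)) - (ψ u.pt - γ (δ u)) =
        ∑ l, ((g l y.pt - ξ l (δ y)) - (g l u.pt - ξ l (δ u))) • b l := by
      rw [hξ, hξ]
      simp only [ψ, sub_smul, Finset.sum_sub_distrib]
    rw [h1]
    refine (norm_sum_le _ _).trans ?_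
    rw [hB, Finset.mul_sum, Finset.sum_mul]
    refine Finset.sum_le_sum fun l _ => ?_
    rw [norm_smul, Real.norm_eq_abs]
    have h2 : |(g l y.pt - ξ l (δ y)) - (g l u.pt - ξ l (δ u))| ≤
        2 * (‖ξ l‖ * min (T.tail n) (dist y u)) := by
      have h3 := hg3 l y
      have h4 := hg3 l u
      have h5 := hg2 l y u
      have h6 := hξlip l y u
      rw [abs_le] at h3 h4 h5 h6
      rcases le_total (T.tail n) (dist y u) with h7 | h7
      · rw [min_eq_left h7, abs_le]
        constructor <;> linarith [h3.1, h3.2, h4.1, h4.2]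
      · rw [min_eq_right h7, abs_le]
        constructor <;> linarith [h5.1, h5.2, h6.1, h6.2]
    have h3 := mul_le_mul_of_nonneg_right h2 (norm_nonneg (b l))
    linarith
  obtain ⟨U, hUlin⟩ := Lin.linearize (V.subtypeL) v hv ψ
    (mul_nonneg hB0 (by positivity)) hψ
  obtain ⟨j, hj⟩ := hT (V.subtypeL.comp U) (by
    have h1 : LinearMap.range ((V.subtypeL.comp U : X →L[ℝ] X) : X →ₗ[ℝ] X) ≤ V := by
      rintro _ ⟨y, rfl⟩
      exact (U y).2
    exact Submodule.finiteDimensional_of_le h1)
  have hid : ∀ y u : GM T C, (V.subtypeL (ψ y.pt) - y.pt) - (V.subtypeL (ψ u.pt) - u.pt) =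
      (((ψ y.pt - γ (δ y)) - (ψ u.pt - γ (δ u)) : V) : X) + (β (R (δ y - δ u)) - β (δ y - δ u)) := by
    intro y u
    rw [map_sub, map_sub, map_sub, hβ, hβ]
    show ((ψ y.pt : X) - y.pt) - ((ψ u.pt : X) - u.pt) =
      ((ψ y.pt : X) - β (R (δ y))) - ((ψ u.pt : X) - β (R (δ u))) +
        ((β (R (δ y)) - β (R (δ u))) - (y.pt - u.pt))
    abel
  have hest := hUlin (N j) (a j) (h j) ((1 / 16) / c j) (1 / 16) (hh j) (fun m t ht => ?_)
    (fun m t ht b' hb' => ?_)
  rotate_left
  · -- first estimate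
    have hm1 : ∑ i ∈ Finset.range m, t i • v i + h j • ∑ i ∈ Finset.range (N j), a j i • v i ∈ C := by
      rw [Finset.smul_sum]
      simp only [smul_smul]
      exact hCadd m (N j) t (fun i => h j * a j i) ht (hha j)
    have hm2 : ∑ i ∈ Finset.range m, t i • v i ∈ C :=
      hCmem m t fun i => ⟨by linarith [(ht i).1], by linarith [(ht i).2]⟩
    let y : GM T C := ⟨_, hm1⟩
    let u : GM T C := ⟨_, hm2⟩
    have hyu : y.pt - u.pt = h j • x j := add_sub_cancel_left _ _
    have h1 := hid y u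
    show ‖(V.subtypeL (ψ y.pt) - y.pt) - (V.subtypeL (ψ u.pt) - u.pt)‖ ≤ _
    rw [h1]
    refine (norm_add_le _ _).trans ?_
    have h2 : ‖(((ψ y.pt - γ (δ y)) - (ψ u.pt - γ (δ u)) : V) : X)‖ ≤ h j / 32 := by
      have h3 := herr y u
      rw [GM.dist_def, hyu, norm_smul, Real.norm_of_nonneg (hh j).le] at h3
      exact h3.trans (hn j).1
    have h3 : ‖β (R (δ y - δ u)) - β (δ y - δ u)‖ ≤ h j / 32 := by
      have h4 := hR2 ((h j)⁻¹ • (δ y - δ u))
        (Or.inr (mem_iUnion.2 ⟨j, Or.inl ⟨(y, u), hyu, rfl⟩⟩))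
      rw [map_smul, map_smul, map_smul, ← smul_sub, norm_smul, Real.norm_of_nonneg
        (inv_pos.2 (hh j)).le, inv_mul_le_iff₀ (hh j)] at h4
      linarith
    linarith
  · -- second estimate
    have hb1 : ∀ i, i < N j → |b' i| ≤ 1 := by
      intro i hi
      refine (hb' i).trans ?_
      have := hha j i hi
      rwa [abs_mul, abs_of_pos (hh j)] at this
    have hm1 : ∑ i ∈ Finset.range m, t i • v i + ∑ i ∈ Finset.range (N j), b' i • v i ∈ C :=
      hCadd m (N j) t b' ht hb1
    have hm2 : ∑ i ∈ Finset.range m, t i • v i ∈ C :=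
      hCmem m t fun i => ⟨by linarith [(ht i).1], by linarith [(ht i).2]⟩
    let y : GM T C := ⟨_, hm1⟩
    let u : GM T C := ⟨_, hm2⟩
    have hyu : ‖y.pt - u.pt‖ ≤ h j * S j := by
      have h1 : y.pt - u.pt = ∑ i ∈ Finset.range (N j), b' i • v i := add_sub_cancel_left _ _
      rw [h1]
      refine (norm_sum_le _ _).trans ?_
      simp only [S]
      rw [Finset.mul_sum]
      refine Finset.sum_le_sum fun i _ => ?_
      rw [norm_smul, Real.norm_eq_abs, ← mul_assoc]
      exact mul_le_mul_of_nonneg_right (hb' i) (norm_nonneg _)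
    have h1 := hid y u
    show ‖(V.subtypeL (ψ y.pt) - y.pt) - (V.subtypeL (ψ u.pt) - u.pt)‖ ≤ _
    rw [h1]
    refine (norm_add_le _ _).trans ?_
    have h2 : ‖(((ψ y.pt - γ (δ y)) - (ψ u.pt - γ (δ u)) : V) : X)‖ ≤ (1 / 32) / c j := by
      have h3 := herr y u
      refine (h3.trans ?_).trans (hn j).2
      refine mul_le_mul_of_nonneg_left (min_le_min_left _ ?_) (by positivity)
      rw [GM.dist_def]
      exact T.om_mono (norm_nonneg _) hyu
    have h3 : ‖β (R (δ y - δ u)) - β (δ y - δ u)‖ ≤ (1 / 32) / c j := by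
      have h4 := hR2 (c j • (δ y - δ u))
        (Or.inr (mem_iUnion.2 ⟨j, Or.inr ⟨(y, u), hyu, rfl⟩⟩))
      rw [map_smul, map_smul, map_smul, ← smul_sub, norm_smul, Real.norm_of_nonneg
        (hc j).le] at h4
      rw [le_div_iff₀ (hc j), mul_comm]
      exact h4
    have h4 : (1 / 32 : ℝ) / c j + (1 / 32) / c j = (1 / 16) / c j := by ring
    linarith
  have hfinal : 1 / 16 + 2 * ((1 / 16) / c j) * ∑ i ∈ Finset.range (N j), |a j i| ≤ 1 / 8 := by
    have h1 : 2 * ((1 / 16) / c j) * A j = (1 / 16) * ((2 * A j) / c j) := by ring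
    have h2 : (2 * A j) / c j ≤ 1 := by
      rw [div_le_one (hc j)]
      simp only [c]
      linarith
    show 1 / 16 + 2 * ((1 / 16) / c j) * A j ≤ 1 / 8
    rw [h1]
    linarith
  have h9 : ‖(V.subtypeL.comp U) (∑ i ∈ Finset.range (N j), a j i • v i) -
      ∑ i ∈ Finset.range (N j), a j i • v i‖ ≤ 1 / 8 := hest.trans hfinal
  linarith

end Pool.Agent.W700.Gauge
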