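import Pool.Agent.W700.Gauge

/-!
The metric `om (‖x - y‖)` on a compact subset of a normed space.
-/

set_option autoImplicit false
set_option linter.unusedSectionVars false

open Set Filter Topology

namespace Pool.Agent.W700.Gauge

/-- A subset `C` of a normed space, with the metric `om ‖x - y‖`. -/
structure GM {X : Type} [NormedAddCommGroup X] (T : Tau) (C : Set X) : Type where
  pt : X
  mem : pt ∈ C

section

variable {X : Type} [NormedAddCommGroup X] {T : Tau} {C : Set X}

lemma GM.ext' {x y : GM T C} (h : x.pt = y.pt) : x = y := by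
  cases x; cases y; simp only at h; subst h; rfl

noncomputable instance : MetricSpace (GM T C) where
  dist x y := T.om ‖x.pt - y.pt‖
  dist_self x := by
    show T.om ‖x.pt - x.pt‖ = 0
    rw [sub_self, norm_zero, T.om_zero]
  dist_comm x y := by
    show T.om ‖x.pt - y.pt‖ = T.om ‖y.pt - x.pt‖
    rw [norm_sub_rev]
  dist_triangle x y z := by
    show T.om ‖x.pt - z.pt‖ ≤ T.om ‖x.pt - y.pt‖ + T.om ‖y.pt - z.pt‖
    exact (T.om_mono (norm_nonneg _) (norm_sub_le_norm_sub_add_norm_sub _ _ _)).trans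
      (T.om_add (norm_nonneg _) (norm_nonneg _))
  eq_of_dist_eq_zero {x y} h := by
    have h1 : T.om ‖x.pt - y.pt‖ = 0 := h
    have h2 := T.le_om (norm_nonneg (x.pt - y.pt))
    rw [h1] at h2
    exact GM.ext' (sub_eq_zero.1 (norm_le_zero_iff.1 h2))

lemma GM.dist_def (x y : GM T C) : dist x y = T.om ‖x.pt - y.pt‖ := rfl

lemma GM.norm_le_dist (x y : GM T C) : ‖x.pt - y.pt‖ ≤ dist x y := T.le_om (norm_nonneg _)

lemma GM.continuous_pt : Continuous (GM.pt : GM T C → X) := by
  have h : LipschitzWith 1 (GM.pt : GM T C → X) := by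
    refine LipschitzWith.of_dist_le_mul fun x y => ?_
    rw [dist_eq_norm, NNReal.coe_one, one_mul]
    exact GM.norm_le_dist x y
  exact h.continuous

lemma GM.continuous_mk : Continuous (fun x : C => (⟨x.1, x.2⟩ : GM T C)) := by
  rw [Metric.continuous_iff]
  intro x ε hε
  obtain ⟨η, hη, h⟩ := T.om_small (half_pos hε)
  refine ⟨η, hη, fun y hy => ?_⟩
  rw [GM.dist_def]
  have h1 : ‖(y : X) - x‖ < η := by
    rw [Subtype.dist_eq, dist_eq_norm] at hy
    exact hy
  have := h _ (norm_nonneg _) h1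
  show T.om ‖(y : X) - x‖ < ε
  linarith

theorem GM.compactSpace (hC : IsCompact C) : CompactSpace (GM T C) := by
  have : CompactSpace C := isCompact_iff_compactSpace.1 hC
  have h1 : IsCompact (range (fun x : C => (⟨x.1, x.2⟩ : GM T C))) :=
    isCompact_range GM.continuous_mk
  have h2 : range (fun x : C => (⟨x.1, x.2⟩ : GM T C)) = univ := by
    ext x
    simp only [mem_range, mem_univ, iff_true]
    exact ⟨⟨x.pt, x.mem⟩, rfl⟩
  rw [h2] at h1
  exact ⟨h1⟩

/-- The little Lipschitz functions separate the points with constant one. -/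
theorem GM.separates (hC : IsCompact C) (x0 x y : GM T C) : ∃ f : GM T C → ℝ,
    (∀ a b, |f a - f b| ≤ 1 * dist a b) ∧
    (∀ ε : ℝ, 0 < ε → ∃ η : ℝ, 0 < η ∧ ∀ a b, dist a b < η → |f a - f b| ≤ ε * dist a b) ∧
    (∀ ε : ℝ, 0 < ε → ∃ r : ℝ, ∀ a b, (r < dist a x0 ∨ r < dist b x0) →
      |f a - f b| ≤ ε * dist a b) ∧
    f x - f y = dist x y := by
  have hcomp := GM.compactSpace (T := T) hC
  -- boundedness
  obtain ⟨r, hr⟩ : ∃ r : ℝ, ∀ a : GM T C, dist a x0 ≤ r := by
    obtain ⟨r, hr⟩ := (isCompact_univ (X := GM T C)).isBounded.subset_closedBall x0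
    exact ⟨r, fun a => hr (mem_univ a)⟩
  rcases eq_or_ne x y with rfl | hxy
  · refine ⟨fun _ => 0, fun a b => by simp, fun ε hε => ⟨1, one_pos, fun a b _ => ?_⟩,
      fun ε hε => ⟨r, fun a b _ => ?_⟩, by simp⟩
    · simpa using mul_nonneg hε.le dist_nonneg
    · simpa using mul_nonneg hε.le dist_nonneg
  · set D : ℝ := ‖x.pt - y.pt‖ with hD
    have hDpos : 0 < D := by
      rw [hD, norm_pos_iff, sub_ne_zero]
      exact fun h => hxy (GM.ext' h)
    set l : ℝ := T.om D / D with hl
    have hl0 : 0 < l := div_pos (lt_of_lt_of_le hDpos (T.le_om hDpos.le)) hDpos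
    have hlD : l * D = T.om D := div_mul_cancel₀ _ hDpos.ne'
    have habs : ∀ a b : GM T C, |l * min ‖a.pt - y.pt‖ D - l * min ‖b.pt - y.pt‖ D| ≤
        l * ‖a.pt - b.pt‖ := by
      intro a b
      rw [← mul_sub, abs_mul, abs_of_pos hl0]
      refine mul_le_mul_of_nonneg_left ?_ hl0.le
      have h1 := abs_min_sub_min_le_max ‖a.pt - y.pt‖ D ‖b.pt - y.pt‖ D
      rw [sub_self, abs_zero, max_eq_left (abs_nonneg _)] at h1
      refine h1.trans ?_
      have h2 := abs_norm_sub_norm_le (a.pt - y.pt) (b.pt - y.pt)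
      rwa [sub_sub_sub_cancel_right] at h2
    have habs2 : ∀ a b : GM T C, |l * min ‖a.pt - y.pt‖ D - l * min ‖b.pt - y.pt‖ D| ≤ T.om D := by
      intro a b
      rw [← mul_sub, abs_mul, abs_of_pos hl0, ← hlD]
      refine mul_le_mul_of_nonneg_left ?_ hl0.le
      rw [abs_le]
      have h1 : 0 ≤ min ‖a.pt - y.pt‖ D := le_min (norm_nonneg _) hDpos.le
      have h2 : 0 ≤ min ‖b.pt - y.pt‖ D := le_min (norm_nonneg _) hDpos.le
      have h3 : min ‖a.pt - y.pt‖ D ≤ D := min_le_right _ _
      have h4 : min ‖b.pt - y.pt‖ D ≤ D := min_le_right _ _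
      constructor <;> linarith
    refine ⟨fun z => l * min ‖z.pt - y.pt‖ D, fun a b => ?_, fun ε hε => ?_, fun ε hε => ?_, ?_⟩
    · rw [one_mul, GM.dist_def]
      rcases le_total ‖a.pt - b.pt‖ D with h | h
      · refine (habs a b).trans ?_
        have h1 := T.om_div (norm_nonneg (a.pt - b.pt)) h
        rw [hl, div_mul_eq_mul_div, div_le_iff₀ hDpos]
        exact h1
      · exact (habs2 a b).trans (T.om_mono hDpos.le h)
    · obtain ⟨η, hη, h⟩ := T.le_mul_om (show 0 < ε / l by positivity)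
      refine ⟨η, hη, fun a b hab => (habs a b).trans ?_⟩
      have h1 := h _ (norm_nonneg (a.pt - b.pt)) (lt_of_le_of_lt (GM.norm_le_dist a b) hab)
      rw [GM.dist_def]
      calc l * ‖a.pt - b.pt‖ ≤ l * (ε / l * T.om ‖a.pt - b.pt‖) :=
            mul_le_mul_of_nonneg_left h1 hl0.le
        _ = ε * T.om ‖a.pt - b.pt‖ := by field_simp
    · exact ⟨r, fun a b hab => absurd hab (by
        rw [not_or, not_lt, not_lt]
        exact ⟨hr a, hr b⟩)⟩
    · show l * min ‖x.pt - y.pt‖ D - l * min ‖y.pt - y.pt‖ D = dist x y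
      rw [sub_self, norm_zero, min_self, min_eq_left hDpos.le, mul_zero, sub_zero, hlD,
        GM.dist_def]

/-- Lipschitz approximation of functions on `GM T C` by functions Lipschitz for the norm. -/
theorem GM.approx (hC : IsCompact C) (hne : C.Nonempty) (f : GM T C → ℝ) {L : ℝ} (hL : 0 ≤ L)
    (hf : ∀ a b, |f a - f b| ≤ L * dist a b) (n : ℕ) :
    ∃ g : X → ℝ, (∀ x x', |g x - g x'| ≤ L * (n + 1) * ‖x - x'‖) ∧
      (∀ a b : GM T C, |g a.pt - g b.pt| ≤ L * dist a b) ∧
      ∀ a : GM T C, |g a.pt - f a| ≤ L * T.tail n := by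
  have hcomp := GM.compactSpace (T := T) hC
  have hcont : Continuous f := by
    have h : LipschitzWith L.toNNReal f := by
      refine LipschitzWith.of_dist_le_mul fun x y => ?_
      rw [Real.dist_eq, Real.coe_toNNReal _ hL]
      exact hf x y
    exact h.continuous
  obtain ⟨B, hB⟩ : ∃ B : ℝ, ∀ a, B ≤ f a := by
    obtain ⟨B, hB⟩ := (isCompact_range hcont).isBounded.bddBelow
    exact ⟨B, fun a => hB ⟨a, rfl⟩⟩
  obtain ⟨z0, hz0⟩ := hne
  have hne' : Nonempty (GM T C) := ⟨⟨z0, hz0⟩⟩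
  let g : X → ℝ := fun x => ⨅ z : GM T C, (f z + L * T.omN n ‖x - z.pt‖)
  have hbdd : ∀ x : X, BddBelow (range fun z : GM T C => f z + L * T.omN n ‖x - z.pt‖) := by
    intro x
    refine ⟨B, ?_⟩
    rintro _ ⟨z, rfl⟩
    have := mul_nonneg hL (T.omN_nonneg n (norm_nonneg (x - z.pt)))
    have := hB z
    show B ≤ f z + L * T.omN n ‖x - z.pt‖
    linarith
  have hle : ∀ x x', g x ≤ g x' + L * T.omN n ‖x - x'‖ := by
    intro x x'
    rw [← sub_le_iff_le_add]
    refine le_ciInf fun z => ?_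
    have h1 : g x ≤ f z + L * T.omN n ‖x - z.pt‖ := ciInf_le (hbdd x) z
    have h2 : T.omN n ‖x - z.pt‖ ≤ T.omN n ‖x - x'‖ + T.omN n ‖x' - z.pt‖ :=
      (T.omN_mono n (norm_sub_le_norm_sub_add_norm_sub _ _ _)).trans
        (T.omN_add n (norm_nonneg _) (norm_nonneg _))
    have h3 := mul_le_mul_of_nonneg_left h2 hL
    linarith
  have habs : ∀ x x', |g x - g x'| ≤ L * T.omN n ‖x - x'‖ := by
    intro x x'
    rw [abs_le]
    have h1 := hle x x'
    have h2 := hle x' x
    rw [norm_sub_rev x' x] at h2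
    constructor <;> linarith
  refine ⟨g, fun x x' => ?_, fun a b => ?_, fun a => ?_⟩
  · refine (habs x x').trans ?_
    have := mul_le_mul_of_nonneg_left (T.omN_le_mul n ‖x - x'‖) hL
    linarith
  · refine (habs _ _).trans ?_
    exact mul_le_mul_of_nonneg_left (T.omN_le_om n (norm_nonneg _)) hL
  · rw [abs_le]
    constructor
    · have h1 : f a - L * T.tail n ≤ g a.pt := by
        refine le_ciInf fun z => ?_
        have h2 := hf a z
        rw [abs_le] at h2
        have h3 := T.om_le_omN_add n (norm_nonneg (a.pt - z.pt))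
        rw [GM.dist_def] at h2
        have h4 := mul_le_mul_of_nonneg_left h3 hL
        linarith [h2.2]
      linarith
    · have h1 : g a.pt ≤ f a + L * T.omN n ‖a.pt - a.pt‖ := ciInf_le (hbdd a.pt) a
      rw [sub_self, norm_zero, T.omN_zero, mul_zero] at h1
      have := mul_nonneg hL (T.tail_nonneg n)
      linarith

end

end Pool.Agent.W700.Gauge
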