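import Mathlib

/-!
Slowly growing concave gauges `om τ t = t + ∑ min t (τ m)`.
-/

set_option autoImplicit false
set_option linter.unusedSectionVars false

open Set Filter Topology

namespace Pool.Agent.W700.Gauge

/-- a summable sequence of positive numbers -/
structure Tau where
  t : ℕ → ℝ
  pos : ∀ m, 0 < t m
  sum : Summable t

namespace Tau

variable (T : Tau)

/-- the gauge -/
noncomputable def om (s : ℝ) : ℝ := s + ∑' m, min s (T.t m)

/-- the truncated gauge -/
noncomputable def omN (n : ℕ) (s : ℝ) : ℝ := s + ∑ m ∈ Finset.range n, min s (T.t m)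

/-- the tail -/
noncomputable def tail (n : ℕ) : ℝ := ∑' m, T.t (m + n)

lemma min_nonneg {s : ℝ} (hs : 0 ≤ s) (m : ℕ) : 0 ≤ min s (T.t m) := le_min hs (T.pos m).le

lemma summable_min {s : ℝ} (hs : 0 ≤ s) : Summable fun m => min s (T.t m) :=
  Summable.of_nonneg_of_le (T.min_nonneg hs) (fun _ => min_le_right _ _) T.sum

lemma om_zero : T.om 0 = 0 := by
  unfold om
  have : ∀ m, min 0 (T.t m) = 0 := fun m => min_eq_left (T.pos m).le
  simp [this]

lemma le_om {s : ℝ} (hs : 0 ≤ s) : s ≤ T.om s := by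
  unfold om
  have : 0 ≤ ∑' m, min s (T.t m) := tsum_nonneg (T.min_nonneg hs)
  linarith

lemma om_nonneg {s : ℝ} (hs : 0 ≤ s) : 0 ≤ T.om s := hs.trans (T.le_om hs)

lemma om_mono {s t : ℝ} (hs : 0 ≤ s) (hst : s ≤ t) : T.om s ≤ T.om t := by
  unfold om
  have := (T.summable_min hs).tsum_le_tsum (fun m => min_le_min_right (T.t m) hst)
    (T.summable_min (hs.trans hst))
  linarith

lemma min_add_le {s t r : ℝ} (hs : 0 ≤ s) (ht : 0 ≤ t) (hr : 0 ≤ r) :
    min (s + t) r ≤ min s r + min t r := by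
  rcases le_total s r with h1 | h1 <;> rcases le_total t r with h2 | h2
  · rw [min_eq_left h1, min_eq_left h2]; exact min_le_left _ _
  · rw [min_eq_left h1, min_eq_right h2]; exact (min_le_right _ _).trans (by linarith)
  · rw [min_eq_right h1, min_eq_left h2]; exact (min_le_right _ _).trans (by linarith)
  · rw [min_eq_right h1, min_eq_right h2]; exact (min_le_right _ _).trans (by linarith)

lemma om_add {s t : ℝ} (hs : 0 ≤ s) (ht : 0 ≤ t) : T.om (s + t) ≤ T.om s + T.om t := by
  unfold om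
  have h1 := (T.summable_min (add_nonneg hs ht)).tsum_le_tsum
    (fun m => min_add_le hs ht (T.pos m).le) ((T.summable_min hs).add (T.summable_min ht))
  rw [(T.summable_min hs).tsum_add (T.summable_min ht)] at h1
  linarith

lemma om_div {s t : ℝ} (hs : 0 ≤ s) (hst : s ≤ t) : T.om t * s ≤ T.om s * t := by
  unfold om
  have ht := hs.trans hst
  have h1 : (∑' m, min t (T.t m)) * s ≤ (∑' m, min s (T.t m)) * t := by
    rw [← tsum_mul_right, ← tsum_mul_right]
    refine ((T.summable_min ht).mul_right s).tsum_le_tsum (fun m => ?_)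
      ((T.summable_min hs).mul_right t)
    rcases le_total s (T.t m) with h | h
    · rw [min_eq_left h]
      calc min t (T.t m) * s ≤ t * s := mul_le_mul_of_nonneg_right (min_le_left _ _) hs
        _ = s * t := mul_comm _ _
    · rw [min_eq_right h]
      exact mul_le_mul (min_le_right _ _) hst hs (T.pos m).le
  nlinarith

lemma omN_le_om (n : ℕ) {s : ℝ} (hs : 0 ≤ s) : T.omN n s ≤ T.om s := by
  unfold omN om
  have := (T.summable_min hs).sum_le_tsum (Finset.range n) (fun m _ => T.min_nonneg hs m)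
  linarith

lemma omN_nonneg (n : ℕ) {s : ℝ} (hs : 0 ≤ s) : 0 ≤ T.omN n s := by
  unfold omN
  have := Finset.sum_nonneg (s := Finset.range n) (fun m _ => T.min_nonneg hs m)
  linarith

lemma omN_zero (n : ℕ) : T.omN n 0 = 0 := by
  unfold omN
  have : ∀ m, min 0 (T.t m) = 0 := fun m => min_eq_left (T.pos m).le
  simp [this]

lemma omN_mono (n : ℕ) {s t : ℝ} (hst : s ≤ t) : T.omN n s ≤ T.omN n t := by
  unfold omN
  have := Finset.sum_le_sum (s := Finset.range n) (fun m _ => min_le_min_right (T.t m) hst)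
  linarith

lemma omN_add (n : ℕ) {s t : ℝ} (hs : 0 ≤ s) (ht : 0 ≤ t) :
    T.omN n (s + t) ≤ T.omN n s + T.omN n t := by
  unfold omN
  have := Finset.sum_le_sum (s := Finset.range n)
    (fun m _ => min_add_le hs ht (T.pos m).le)
  rw [Finset.sum_add_distrib] at this
  linarith

lemma omN_le_mul (n : ℕ) (s : ℝ) : T.omN n s ≤ (n + 1) * s := by
  unfold omN
  have := Finset.sum_le_sum (s := Finset.range n) (fun m _ => min_le_left s (T.t m))
  rw [Finset.sum_const, Finset.card_range, nsmul_eq_mul] at this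
  linarith

lemma om_le_omN_add (n : ℕ) {s : ℝ} (hs : 0 ≤ s) : T.om s ≤ T.omN n s + T.tail n := by
  unfold om omN tail
  have h1 := (T.summable_min hs).sum_add_tsum_nat_add n
  have h2 : ∑' m, min s (T.t (m + n)) ≤ ∑' m, T.t (m + n) :=
    ((summable_nat_add_iff n).2 (T.summable_min hs)).tsum_le_tsum (fun m => min_le_right _ _)
      ((summable_nat_add_iff n).2 T.sum)
  linarith

lemma tail_nonneg (n : ℕ) : 0 ≤ T.tail n := tsum_nonneg fun _ => (T.pos _).le

lemma tendsto_tail : Tendsto T.tail atTop (𝓝 0) := tendsto_sum_nat_add T.t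

lemma om_small {ε : ℝ} (hε : 0 < ε) : ∃ η : ℝ, 0 < η ∧ ∀ s, 0 ≤ s → s < η → T.om s ≤ ε := by
  obtain ⟨n, hn⟩ := (T.tendsto_tail.eventually (gt_mem_nhds (half_pos hε))).exists
  refine ⟨ε / 2 / (n + 1), by positivity, fun s hs hsη => ?_⟩
  have h1 := T.om_le_omN_add n hs
  have h2 := T.omN_le_mul n s
  have h3 : (n + 1) * s ≤ ε / 2 := by
    rw [lt_div_iff₀ (by positivity)] at hsη
    linarith
  linarith

/-- nontriviality of the gauge -/
lemma le_mul_om {ε : ℝ} (hε : 0 < ε) : ∃ η : ℝ, 0 < η ∧ ∀ s, 0 ≤ s → s < η → s ≤ ε * T.om s := by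
  obtain ⟨n, hn⟩ := exists_nat_gt (1 / ε)
  have hfin : ∃ η : ℝ, 0 < η ∧ ∀ m < n, η ≤ T.t m := by
    clear hn
    induction n with
    | zero => exact ⟨1, one_pos, fun m hm => by omega⟩
    | succ n ih =>
      obtain ⟨η, hη, h⟩ := ih
      refine ⟨min η (T.t n), lt_min hη (T.pos n), fun m hm => ?_⟩
      rcases Nat.lt_succ_iff_lt_or_eq.1 hm with h1 | rfl
      · exact (min_le_left _ _).trans (h m h1)
      · exact min_le_right _ _
  obtain ⟨η, hη, h⟩ := hfin
  refine ⟨η, hη, fun s hs hsη => ?_⟩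
  have h1 : (n : ℝ) * s ≤ T.om s := by
    refine le_trans ?_ (T.omN_le_om n hs)
    unfold omN
    have h2 : ∑ m ∈ Finset.range n, min s (T.t m) = n * s := by
      rw [Finset.sum_congr rfl (fun m hm => min_eq_left (hsη.le.trans (h m (Finset.mem_range.1 hm))))]
      simp
    rw [h2]
    linarith
  have h3 : 1 ≤ ε * n := by
    rw [div_lt_iff₀ hε] at hn
    linarith
  calc s = 1 * s := (one_mul s).symm
    _ ≤ (ε * n) * s := mul_le_mul_of_nonneg_right h3 hs
    _ = ε * (n * s) := by ring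
    _ ≤ ε * T.om s := mul_le_mul_of_nonneg_left h1 hε.le

end Tau

/-- choice of a gauge that grows so slowly that a given null family stays null -/
theorem exists_tau {J : Type*} (θ s : J → ℝ) (hθ : ∀ j, 0 ≤ θ j) (hs : ∀ j, 0 ≤ s j)
    (h : Tendsto (fun j => θ j * s j) cofinite (𝓝 0)) :
    ∃ T : Tau, Tendsto (fun j => θ j * T.om (s j)) cofinite (𝓝 0) := by
  classical
  have hex : ∀ m : ℕ, ∃ τ : ℝ, 0 < τ ∧ τ ≤ (1 / 2) ^ m ∧ ∀ j, θ j * min (s j) τ ≤ (1 / 2) ^ m := by
    intro m
    have hF : {j | ¬ θ j * s j < (1 / 2) ^ m}.Finite := by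
      have := h.eventually (gt_mem_nhds (show (0 : ℝ) < (1 / 2) ^ m by positivity))
      rwa [eventually_cofinite] at this
    have hF2 : ∃ τ : ℝ, 0 < τ ∧ τ ≤ (1 / 2) ^ m ∧ ∀ j ∈ hF.toFinset, θ j * τ ≤ (1 / 2) ^ m := by
      generalize hF.toFinset = F
      induction F using Finset.induction_on with
      | empty => exact ⟨(1 / 2) ^ m, by positivity, le_rfl, fun j hj => by simp at hj⟩
      | insert i F _ ih =>
        obtain ⟨τ, h1, h2, h3⟩ := ih
        refine ⟨min τ ((1 / 2) ^ m / (θ i + 1)), lt_min h1 (by have := hθ i; positivity),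
          (min_le_left _ _).trans h2, fun j hj => ?_⟩
        rcases Finset.mem_insert.1 hj with rfl | hj
        · have h4 := hθ j
          calc θ j * min τ ((1 / 2) ^ m / (θ j + 1)) ≤ θ j * ((1 / 2) ^ m / (θ j + 1)) :=
                mul_le_mul_of_nonneg_left (min_le_right _ _) h4
            _ ≤ (1 / 2) ^ m := by
              rw [mul_div_assoc', div_le_iff₀ (by positivity)]
              have : (0 : ℝ) < (1 / 2) ^ m := by positivity
              nlinarith
        · exact (mul_le_mul_of_nonneg_left (min_le_left _ _) (hθ j)).trans (h3 j hj)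
    obtain ⟨τ, h1, h2, h3⟩ := hF2
    refine ⟨τ, h1, h2, fun j => ?_⟩
    by_cases hj : θ j * s j < (1 / 2) ^ m
    · exact (mul_le_mul_of_nonneg_left (min_le_left _ _) (hθ j)).trans hj.le
    · exact (mul_le_mul_of_nonneg_left (min_le_right _ _) (hθ j)).trans
        (h3 j (hF.mem_toFinset.2 hj))
  choose τ h1 h2 h3 using hex
  have hgeo : Summable fun m : ℕ => ((1 : ℝ) / 2) ^ m :=
    summable_geometric_of_lt_one (by norm_num) (by norm_num)
  have hτs : Summable τ := Summable.of_nonneg_of_le (fun m => (h1 m).le) h2 hgeo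
  refine ⟨⟨τ, h1, hτs⟩, ?_⟩
  have hmin : ∀ j m, 0 ≤ θ j * min (s j) (τ m) := fun j m =>
    mul_nonneg (hθ j) (le_min (hs j) (h1 m).le)
  have hlim : Tendsto (fun j => ∑' m, θ j * min (s j) (τ m)) cofinite (𝓝 (∑' _ : ℕ, (0 : ℝ))) := by
    refine tendsto_tsum_of_dominated_convergence hgeo (fun m => ?_) (Eventually.of_forall fun j m => ?_)
    · refine squeeze_zero (fun j => hmin j m) (fun j => ?_) h
      exact mul_le_mul_of_nonneg_left (min_le_left _ _) (hθ j)
    · rw [Real.norm_of_nonneg (hmin j m)]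
      exact h3 m j
  rw [tsum_zero] at hlim
  have h4 := h.add hlim
  rw [add_zero] at h4
  refine h4.congr fun j => ?_
  show θ j * s j + ∑' m, θ j * min (s j) (τ m) = θ j * (s j + ∑' m, min (s j) (τ m))
  rw [mul_add, tsum_mul_left]

end Pool.Agent.W700.Gauge
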